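import Pool.Agent.Helper95.HS.Stmts
import Pool.Agent.Helper99.LN.MGX

/-! # Row MGY (MP_56acfd_mp): the Morawetz functions with explicit powers of `d` -/

set_option autoImplicit false

namespace Pool.Agent.Helper99.HS

open MeasureTheory Filter Pool.Agent.Helper95.PW Pool.Agent.Helper95.LN Pool.Agent.Helper95.CF
  Pool.Agent.Helper95.HS Pool.Agent.Helper95.PW.MGS74 Pool.Agent.Helper99.LN

theorem MGY_pd (a c : ℝ) (i : Fin 3) (f : R3 → ℝ) (hf : ContDiff ℝ (⊤ : ℕ∞) f) :
    pd i (fun y => a * f (c • y)) = fun y => (a * c) * pd i f (c • y) := by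
  funext y
  unfold pd
  have h1 : HasFDerivAt f (fderiv ℝ f (c • y)) (c • y) :=
    ((hf.differentiable (by simp)) _).hasFDerivAt
  have h2 : HasFDerivAt (fun y : R3 => c • y) (c • ContinuousLinearMap.id ℝ R3) y :=
    (hasFDerivAt_id y).const_smul c
  have h3 : HasFDerivAt (fun y : R3 => a * f (c • y))
      (a • ((fderiv ℝ f (c • y)).comp (c • ContinuousLinearMap.id ℝ R3))) y :=
    (h1.comp y h2).const_mul a
  rw [h3.fderiv]
  simp only [ContinuousLinearMap.smul_apply, ContinuousLinearMap.comp_apply,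
    ContinuousLinearMap.id_apply, map_smul, smul_eq_mul]
  ring

theorem MGY_lap (a c : ℝ) (f : R3 → ℝ) (hf : ContDiff ℝ (⊤ : ℕ∞) f) :
    lap (fun y => a * f (c • y)) = fun y => (a * c * c) * lap f (c • y) := by
  funext y
  unfold lap
  rw [Finset.mul_sum]
  apply Finset.sum_congr rfl
  intro i _
  rw [MGY_pd a c i f hf, MGY_pd (a * c) c i (pd i f) (pd_smooth i f hf)]

theorem MGY_nr (c : ℝ) (hc : 0 ≤ c) (y : R3) : nr (c • y) = c * nr y := by
  unfold nr
  have h : (c • y) 0 ^ 2 + (c • y) 1 ^ 2 + (c • y) 2 ^ 2 = c ^ 2 * (y 0 ^ 2 + y 1 ^ 2 + y 2 ^ 2) := by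
    simp only [Pi.smul_apply, smul_eq_mul]
    ring
  rw [h, Real.sqrt_mul (by positivity), Real.sqrt_sq hc]

theorem MGY_mg (d s : ℝ) (hd : 0 < d) :
    mg d s = fun y => d * mg 1 (s * d⁻¹) (d⁻¹ • y) := by
  funext y
  unfold mg
  simp only [Pi.smul_apply, smul_eq_mul]
  have h1 : (d⁻¹ * y 0) ^ 2 + (d⁻¹ * y 1) ^ 2 + (d⁻¹ * y 2) ^ 2 + (s * d⁻¹) ^ 2 =
      (d⁻¹) ^ 2 * (y 0 ^ 2 + y 1 ^ 2 + y 2 ^ 2 + s ^ 2) := by ring
  have h2 : 2 - 2 * ((d⁻¹ * y 0) ^ 2 + (d⁻¹ * y 1) ^ 2 + (d⁻¹ * y 2) ^ 2) / 1 ^ 2 =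
      2 - 2 * (y 0 ^ 2 + y 1 ^ 2 + y 2 ^ 2) / d ^ 2 := by
    field_simp
  rw [h1, h2, Real.sqrt_mul (by positivity), Real.sqrt_sq (by positivity)]
  field_simp

theorem MGY_mor (c s : ℝ) (hc : 0 < c) (hs : 0 < s) (y : R3) :
    mor s y = c ^ 3 * mor (s * c) (c • y) := by
  unfold mor
  rw [MGY_nr c hc.le]
  have h1 : (c * nr y) ^ 2 + (s * c) ^ 2 = c ^ 2 * (nr y ^ 2 + s ^ 2) := by ring
  have h2 : (c ^ 2) ^ (7 / 2 : ℝ) = c ^ 7 := by
    rw [← Real.rpow_natCast c 2, ← Real.rpow_mul hc.le, ← Real.rpow_natCast c 7]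
    norm_num
  have h3 : 0 < (nr y ^ 2 + s ^ 2) ^ (7 / 2 : ℝ) := by positivity
  rw [h1, Real.mul_rpow (by positivity) (by positivity), h2]
  field_simp

theorem MGY (h1 : ST_MGB) (h2 : ST_PK4) (h3 : ST_INN2) : ST_MGY := by
  obtain ⟨A0, hA0, hF⟩ := h1 1 one_pos
  obtain ⟨C, hC, hPK⟩ := h2
  refine ⟨2 * A0 + 15 / 2 * C, by nlinarith, ?_⟩
  intro M X d s hd1 hX hs hsd
  have hd : 0 < d := by linarith
  have hA00 : 0 ≤ A0 := by linarith
  have hAle : A0 ≤ 2 * A0 + 15 / 2 * C := by nlinarith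
  obtain ⟨c, hc⟩ : ∃ c : ℝ, c = d⁻¹ := ⟨_, rfl⟩
  have hc0 : 0 < c := by rw [hc]; positivity
  have hcd : d * c = 1 := by rw [hc]; exact mul_inv_cancel₀ hd.ne'
  have hc1 : c ≤ 1 := by rw [hc]; exact inv_le_one_of_one_le₀ hd1
  have hf : MorF A0 1 (s * c) (mg 1 (s * c)) := by
    apply hF _ (by positivity)
    calc s * c ≤ d * c := mul_le_mul_of_nonneg_right hsd hc0.le
      _ = 1 := hcd
  obtain ⟨f, hfd⟩ : ∃ f : R3 → ℝ, f = mg 1 (s * c) := ⟨_, rfl⟩
  have hmg : mg d s = fun y => d * f (c • y) := by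
    rw [hfd, hc]
    exact MGY_mg d s hd
  rw [← hfd] at hf
  -- derivatives of the single function
  have p1 : ∀ i, pd i (mg d s) = fun y => pd i f (c • y) := by
    intro i
    rw [hmg, MGY_pd d c i f hf.sm, hcd]
    funext y
    rw [one_mul]
  have p2 : ∀ i l, pd i (pd l (mg d s)) = fun y => c * pd i (pd l f) (c • y) := by
    intro i l
    have e : pd l (mg d s) = fun y => 1 * pd l f (c • y) := by
      rw [p1 l]
      funext y
      rw [one_mul]
    rw [e, MGY_pd 1 c i _ (pd_smooth l f hf.sm)]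
    funext y
    rw [one_mul]
  have p3 : lap (mg d s) = fun y => c * lap f (c • y) := by
    rw [hmg, MGY_lap d c f hf.sm]
    funext y
    rw [hcd, one_mul]
  have p4 : lap (lap (mg d s)) = fun y => c ^ 3 * lap (lap f) (c • y) := by
    rw [p3, MGY_lap c c (lap f) (lap_smooth f hf.sm)]
    funext y
    ring
  have hsm : ContDiff ℝ (⊤ : ℕ∞) (mg d s) := by
    rw [hmg]
    exact contDiff_const.mul (hf.sm.comp (contDiff_const_smul c))
  have hnr : ∀ y : R3, nr (c • y) = c * nr y := fun y => MGY_nr c hc0.le y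
  have hdle : ∀ y : R3, d ≤ nr y → 1 ≤ nr (c • y) := by
    intro y hy
    rw [hnr]
    calc (1 : ℝ) = d * c := hcd.symm
      _ ≤ nr y * c := mul_le_mul_of_nonneg_right hy hc0.le
      _ = c * nr y := mul_comm _ _
  have hout : ∀ y : R3, d ≤ nr y → mg d s y = 0 := by
    intro y hy
    rw [hmg]
    show d * f (c • y) = 0
    rw [hf.out _ (hdle y hy), mul_zero]
  have houtd : ∀ i (y : R3), d ≤ nr y → pd i (mg d s) y = 0 := by
    intro i y hy
    rw [p1 i]
    exact hf.outd i _ (hdle y hy)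
  have hcs : HasCompactSupport (mg d s) := by
    rw [hmg]
    exact (hf.cs.comp_smul hc0.ne').mul_left
  have hbi : ∀ y : R3, mor s y ≤ -(1 / 2) * lap (lap (mg d s)) y + 2 * A0 / d := by
    intro y
    rw [p4, MGY_mor c s hc0 hs y]
    have hb := hf.bi (c • y)
    have hle : A0 * (if 1 / 2 ≤ nr (c • y) then 1 / nr (c • y) else 0) ≤ 2 * A0 := by
      have : (if 1 / 2 ≤ nr (c • y) then 1 / nr (c • y) else 0) ≤ 2 := by
        split_ifs with hh
        · rw [div_le_iff₀ (by linarith)]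
          linarith
        · norm_num
      nlinarith
    have hc3 : c ^ 3 ≤ c := by
      calc c ^ 3 ≤ c ^ 1 := pow_le_pow_of_le_one hc0.le hc1 (by norm_num)
        _ = c := pow_one c
    have h4 := mul_le_mul_of_nonneg_left (hb.trans (add_le_add le_rfl hle))
      (show 0 ≤ c ^ 3 by positivity)
    have h5 : c ^ 3 * (2 * A0) ≤ 2 * A0 / d := by
      rw [div_eq_mul_inv, ← hc]
      have := mul_le_mul_of_nonneg_right hc3 (show 0 ≤ 2 * A0 by linarith)
      linarith
    show c ^ 3 * mor (s * c) (c • y) ≤ -(1 / 2) * (c ^ 3 * lap (lap f) (c • y)) + 2 * A0 / d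
    nlinarith
  -- the sum
  have e0 : mG X d s = fun y => ∑ j, mg d s (y - X j) := rfl
  have e1 : ∀ i, pd i (mG X d s) = fun y => ∑ j, pd i (mg d s) (y - X j) := fun i => by
    rw [e0]
    exact pd_sum X i _ hsm
  have e2 : ∀ i l, pd i (pd l (mG X d s)) = fun y => ∑ j, pd i (pd l (mg d s)) (y - X j) :=
    fun i l => by
      rw [e1 l]
      exact pd_sum X i _ (pd_smooth l _ hsm)
  have e3 : lap (mG X d s) = fun y => ∑ j, lap (mg d s) (y - X j) := by
    rw [e0]
    exact lap_sum X _ hsm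
  have e4 : lap (lap (mG X d s)) = fun y => ∑ j, lap (lap (mg d s)) (y - X j) := by
    rw [e3]
    exact lap_sum X _ (lap_smooth _ hsm)
  refine ⟨?_, ?_, ?_, ?_, ?_, ?_, ?_, ?_⟩
  · rw [e0]
    exact ContDiff.sum fun j _ => hsm.comp (contDiff_id.sub contDiff_const)
  · rw [e0]
    exact cs_sum X _ hcs
  · intro i y hy
    rw [e1 i]
    exact Finset.sum_eq_zero fun j _ => houtd i _ (hy j)
  · intro i y
    rw [e1 i]
    exact one_term X d hd hX y (fun j => pd i (mg d s) (y - X j))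
      (fun j hj => houtd i _ hj) (fun t => |t| ≤ 2 * A0 + 15 / 2 * C)
      (by rw [abs_zero]; linarith)
      (fun j => by
        rw [p1 i]
        exact (hf.d1 i _).trans hAle)
  · intro y hy
    rw [e3]
    unfold near1
    rw [Finset.mul_sum]
    refine (Finset.abs_sum_le_sum_abs _ _).trans ?_
    apply Finset.sum_le_sum
    intro j _
    rw [p3]
    show |c * lap f (c • (y - X j))| ≤ _
    rw [abs_mul, abs_of_pos hc0]
    have hn0 : nr (y - X j) ≠ 0 := hy j
    have hn1 : 0 < nr (y - X j) := lt_of_le_of_ne (nr_nonneg _) (Ne.symm hn0)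
    have hn2 : nr (c • (y - X j)) ≠ 0 := by
      rw [hnr]
      positivity
    have h5 := hf.lp _ hn2
    rw [hnr] at h5
    have h6 := mul_le_mul_of_nonneg_left h5 hc0.le
    refine h6.trans ?_
    by_cases hlt : nr (y - X j) < d
    · have h7 : c * nr (y - X j) < 1 := by
        calc c * nr (y - X j) < c * d := mul_lt_mul_of_pos_left hlt hc0
          _ = 1 := by rw [mul_comm]; exact hcd
      rw [if_pos h7, if_pos hlt]
      have h8 : c * (A0 * (1 / (c * nr (y - X j)))) = A0 * (1 / nr (y - X j)) := by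
        field_simp
      rw [h8]
      exact mul_le_mul_of_nonneg_right hAle (by positivity)
    · have h7 : ¬ c * nr (y - X j) < 1 := by
        rw [not_lt] at hlt ⊢
        calc (1 : ℝ) = c * d := by rw [mul_comm]; exact hcd.symm
          _ ≤ c * nr (y - X j) := mul_le_mul_of_nonneg_left hlt hc0.le
      rw [if_neg h7, if_neg hlt, mul_zero, mul_zero, mul_zero]
  · intro y ξ
    have h5 : ∑ i, ∑ l, pd i (pd l (mG X d s)) y * ξ i * ξ l =
        ∑ j, ∑ i, ∑ l, pd i (pd l (mg d s)) (y - X j) * ξ i * ξ l := by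
      have h6 : ∀ i, ∑ l, pd i (pd l (mG X d s)) y * ξ i * ξ l =
          ∑ j, ∑ l, pd i (pd l (mg d s)) (y - X j) * ξ i * ξ l := by
        intro i
        have h7 : ∀ l, pd i (pd l (mG X d s)) y * ξ i * ξ l =
            ∑ j, pd i (pd l (mg d s)) (y - X j) * ξ i * ξ l := by
          intro l
          rw [e2 i l]
          show (∑ j, pd i (pd l (mg d s)) (y - X j)) * ξ i * ξ l = _
          rw [Finset.sum_mul, Finset.sum_mul]
        rw [Finset.sum_congr rfl (fun l _ => h7 l)]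
        exact Finset.sum_comm
      rw [Finset.sum_congr rfl (fun i _ => h6 i)]
      exact Finset.sum_comm
    rw [h5]
    have hS0 : 0 ≤ ∑ i, ξ i ^ 2 := Finset.sum_nonneg fun i _ => sq_nonneg _
    refine one_term X d hd hX y
      (fun j => ∑ i, ∑ l, pd i (pd l (mg d s)) (y - X j) * ξ i * ξ l) ?_
      (fun t => -((2 * A0 + 15 / 2 * C) / d * ∑ i, ξ i ^ 2) ≤ t) ?_ ?_
    · intro j hj
      apply Finset.sum_eq_zero
      intro i _
      apply Finset.sum_eq_zero
      intro l _
      rw [pd_zero d i _ (pd_smooth l _ hsm) (fun z hz => houtd l z hz) _ hj]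
      ring
    · have h6 : 0 ≤ (2 * A0 + 15 / 2 * C) / d * ∑ i, ξ i ^ 2 := by positivity
      linarith
    · intro j
      have h6 := hf.hs (c • (y - X j)) ξ
      have h7 : ∑ i, ∑ l, pd i (pd l (mg d s)) (y - X j) * ξ i * ξ l =
          c * ∑ i, ∑ l, pd i (pd l f) (c • (y - X j)) * ξ i * ξ l := by
        rw [Finset.mul_sum]
        apply Finset.sum_congr rfl
        intro i _
        rw [Finset.mul_sum]
        apply Finset.sum_congr rfl
        intro l _
        rw [p2 i l]
        ring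
      rw [h7]
      have h8 := mul_le_mul_of_nonneg_left h6 hc0.le
      refine le_trans ?_ h8
      rw [div_eq_mul_inv, ← hc]
      have h9 : A0 * (∑ i, ξ i ^ 2) ≤ (2 * A0 + 15 / 2 * C) * (∑ i, ξ i ^ 2) :=
        mul_le_mul_of_nonneg_right hAle hS0
      have h10 := mul_le_mul_of_nonneg_left h9 hc0.le
      nlinarith
  · intro j y hy
    have h5 : ∀ i, pd i (mG X d s) y = pd i (mg d s) (y - X j) := by
      intro i
      rw [e1 i]
      show ∑ k, pd i (mg d s) (y - X k) = _
      apply Finset.sum_eq_single j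
      · intro k _ hk
        apply houtd
        by_contra hlt
        rw [not_le] at hlt
        exact hk (sep_one X d hd hX y k j hlt (by linarith))
      · intro h
        exact absurd (Finset.mem_univ _) h
    have hI := (h3 d s (y - X j) hs hd hy).1
    have h6 : ∑ i, pd i (mG X d s) y * (y i - X j i) =
        nr (y - X j) ^ 2 / Real.sqrt (nr (y - X j) ^ 2 + s ^ 2) := by
      rw [Fin.sum_univ_three, h5, h5, h5, hI, hI, hI, nr_sq]
      simp only [Pi.sub_apply]
      ring
    rw [h6, div_le_iff₀ (by positivity)]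
    have h7 : nr (y - X j) ≤ Real.sqrt (nr (y - X j) ^ 2 + s ^ 2) := by
      apply Real.le_sqrt_of_sq_le
      nlinarith [sq_nonneg s]
    have h8 := mul_le_mul_of_nonneg_left h7 (nr_nonneg (y - X j))
    nlinarith
  · intro y
    rw [e4]
    have hterm : ∀ j : Fin M, mor s (y - X j) ≤ -(1 / 2) * lap (lap (mg d s)) (y - X j) +
        ((if nr (y - X j) < d then 2 * A0 / d else 0) +
          15 / 2 * d * (if d ≤ nr (y - X j) then 1 / nr (y - X j) ^ 4 else 0)) := by
      intro j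
      by_cases hj : nr (y - X j) < d
      · rw [if_pos hj, if_neg (not_le.2 hj), mul_zero, add_zero]
        exact hbi _
      · have hj' : d ≤ nr (y - X j) := not_lt.1 hj
        rw [if_neg hj, if_pos hj', MGX_out d _ hsm hout _ hj', mul_zero, zero_add, zero_add]
        exact MGX_mor d s hs hsd _ hj'
    have hsum := Finset.sum_le_sum (fun j (_ : j ∈ Finset.univ) => hterm j)
    rw [Finset.sum_add_distrib, Finset.sum_add_distrib, ← Finset.mul_sum, ← Finset.mul_sum] at hsum
    have hc2 : 0 ≤ 2 * A0 / d := by positivity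
    have hone : ∑ j : Fin M, (if nr (y - X j) < d then 2 * A0 / d else 0) ≤ 2 * A0 / d := by
      refine one_term X d hd hX y (fun j => if nr (y - X j) < d then 2 * A0 / d else 0) ?_
        (fun t => t ≤ 2 * A0 / d) hc2 ?_
      · intro j hj
        exact if_neg (not_lt.2 hj)
      · intro j
        show (if nr (y - X j) < d then 2 * A0 / d else 0) ≤ 2 * A0 / d
        split_ifs
        · exact le_rfl
        · exact hc2
    have hpk := mul_le_mul_of_nonneg_left (hPK M X d y hd hX) (show 0 ≤ 15 / 2 * d by positivity)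
    have h5 : 15 / 2 * d * (C / d ^ 4) ≤ 15 / 2 * C / d := by
      have e : 15 / 2 * d * (C / d ^ 4) = 15 / 2 * C / d ^ 3 := by
        field_simp
      rw [e]
      apply div_le_div_of_nonneg_left (by positivity) hd
      calc d = d ^ 1 := (pow_one d).symm
        _ ≤ d ^ 3 := pow_le_pow_right₀ hd1 (by norm_num)
    show ∑ j, mor s (y - X j) ≤ -(1 / 2) * (∑ j, lap (lap (mg d s)) (y - X j)) +
      (2 * A0 + 15 / 2 * C) / d
    rw [add_div]
    linarith

end Pool.Agent.Helper99.HS
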